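import Mathlib

/-! MP_5ef000_al: restrictions on `(OR)*` groups (every right partial order extends to a right order):
no actions of nontrivial finite order on torsion-free abelian subgroups of quotients of subgroups,
cones normalised by powers, fixed points of affine actions of subgroups on the line. -/

set_option autoImplicit false

namespace Pool.Agent.Results.MP_5ef000_al.FiniteOrderActions

/-- Every right partial order on `G` extends to a right order. -/
def ORStar (G : Type*) [Group G] : Prop :=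
  ∀ r : G → G → Prop,
    (∀ a, r a a) → (∀ a b c, r a b → r b c → r a c) →
    (∀ a b, r a b → r b a → a = b) → (∀ a b c, r a b → r (a * c) (b * c)) →
    ∃ s : G → G → Prop, (∀ a b, r a b → s a b) ∧
      (∀ a, s a a) ∧ (∀ a b c, s a b → s b c → s a c) ∧
      (∀ a b, s a b → s b a → a = b) ∧ (∀ a b c, s a b → s (a * c) (b * c)) ∧
      (∀ a b, s a b ∨ s b a)

/-- The subsemigroup generated by the elements `t ^ n * b ^ ((-1) ^ n) * t ^ (-n)`, `n ∈ ℤ`. -/
def alt {G : Type*} [Group G] (b t : G) : Subsemigroup G :=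
  Subsemigroup.closure {g | ∃ k : ℤ, g = t ^ (2 * k) * b * (t ^ (2 * k))⁻¹ ∨
    g = t ^ (2 * k + 1) * b⁻¹ * (t ^ (2 * k + 1))⁻¹}

section law

variable {G : Type*} [Group G]

theorem even_mem (b t : G) (k : ℤ) : t ^ (2 * k) * b * (t ^ (2 * k))⁻¹ ∈ alt b t :=
  Subsemigroup.subset_closure ⟨k, Or.inl rfl⟩

theorem odd_mem (b t : G) (k : ℤ) : t ^ (2 * k + 1) * b⁻¹ * (t ^ (2 * k + 1))⁻¹ ∈ alt b t :=
  Subsemigroup.subset_closure ⟨k, Or.inr rfl⟩

theorem conj_even {b t g : G} (hg : g ∈ alt b t) (m : ℤ) :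
    t ^ (2 * m) * g * (t ^ (2 * m))⁻¹ ∈ alt b t := by
  induction hg using Subsemigroup.closure_induction with
  | mem x hx =>
    obtain ⟨k, rfl | rfl⟩ := hx
    · have h := even_mem b t (m + k)
      convert h using 1
      rw [show 2 * (m + k) = 2 * m + 2 * k by ring, zpow_add]
      group
    · have h := odd_mem b t (m + k)
      convert h using 1
      rw [show 2 * (m + k) + 1 = 2 * m + (2 * k + 1) by ring, zpow_add t (2 * m)]
      simp only [mul_inv_rev, mul_assoc]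
  | mul x y _ _ h1 h2 =>
    have h := mul_mem h1 h2
    convert h using 1
    group

theorem conj_odd {b t g : G} (hg : g ∈ alt b t) : (t * g * t⁻¹)⁻¹ ∈ alt b t := by
  induction hg using Subsemigroup.closure_induction with
  | mem x hx =>
    obtain ⟨k, rfl | rfl⟩ := hx
    · have h := odd_mem b t k
      convert h using 1
      rw [show 2 * k + 1 = 1 + 2 * k by ring, zpow_add t 1, zpow_one]
      simp only [mul_inv_rev, mul_assoc, inv_inv]
    · have h := even_mem b t (k + 1)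
      convert h using 1
      rw [show 2 * (k + 1) = 1 + (2 * k + 1) by ring, zpow_add t 1 (2 * k + 1), zpow_one]
      simp only [mul_inv_rev, mul_assoc, inv_inv]
  | mul x y _ _ h1 h2 =>
    have h := mul_mem h2 h1
    convert h using 1
    group

/-- If a power of `t` (with even exponent) lies in `alt b t`, then `1` lies in `alt b t`. -/
theorem one_mem_of_zpow {b t : G} {m : ℤ} (h : t ^ m ∈ alt b t) : (1 : G) ∈ alt b t := by
  have h1 := conj_odd h
  have h2 : (t * t ^ m * t⁻¹)⁻¹ = (t ^ m)⁻¹ := by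
    rw [← zpow_one_add, add_comm, zpow_add_one, mul_inv_cancel_right]
  rw [h2] at h1
  have h3 := mul_mem h h1
  rwa [mul_inv_cancel] at h3

theorem law (hG : ORStar G) (b t : G) : (1 : G) ∈ alt b t := by
  by_contra h1
  let P : Set G := {g | ∃ u ∈ alt b t, ∃ m : ℤ, g = u * t ^ (2 * m)}
  have hPmul : ∀ x ∈ P, ∀ y ∈ P, x * y ∈ P := by
    rintro x ⟨u, hu, m, rfl⟩ y ⟨v, hv, n, rfl⟩
    refine ⟨u * (t ^ (2 * m) * v * (t ^ (2 * m))⁻¹), mul_mem hu (conj_even hv m), m + n, ?_⟩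
    rw [mul_add, zpow_add]
    group
  have hP1 : (1 : G) ∉ P := by
    rintro ⟨u, hu, m, hm⟩
    have hu' : u = t ^ (-(2 * m)) := by
      rw [zpow_neg]
      exact eq_inv_of_mul_eq_one_left hm.symm
    rw [hu'] at hu
    exact h1 (one_mem_of_zpow hu)
  obtain ⟨s, hs, srefl, strans, santi, smul, stot⟩ := hG (fun a c => a = c ∨ c * a⁻¹ ∈ P)
    (fun a => Or.inl rfl)
    (by
      rintro a c d (rfl | h2) (rfl | h3)
      · exact Or.inl rfl
      · exact Or.inr h3
      · exact Or.inr h2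
      · right
        have h4 := hPmul _ h3 _ h2
        rwa [mul_assoc, inv_mul_cancel_left] at h4)
    (by
      rintro a c (rfl | h2) (h3 | h3)
      · rfl
      · rfl
      · exact h3.symm
      · have h4 := hPmul _ h3 _ h2
        rw [mul_assoc, inv_mul_cancel_left, mul_inv_cancel] at h4
        exact absurd h4 hP1)
    (by
      rintro a c d (rfl | h2)
      · exact Or.inl rfl
      · right
        rwa [mul_inv_rev, mul_assoc, mul_inv_cancel_left])
  have hpos : ∀ g ∈ P, s 1 g := fun g hg => hs 1 g (Or.inr (by rwa [inv_one, mul_one]))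
  have hb : b ∈ alt b t := by
    have := even_mem b t 0
    simpa using this
  have hb' : t⁻¹ * b⁻¹ * t ∈ alt b t := by
    have := odd_mem b t (-1)
    simpa using this
  have p1 : s 1 (b * t * t) := hpos _ ⟨b, hb, 1, by
    rw [mul_one, zpow_two, mul_assoc]⟩
  have p2 : s 1 b := hpos _ ⟨b, hb, 0, by simp⟩
  have p3 : s 1 (t⁻¹ * b⁻¹ * t) := hpos _ ⟨_, hb', 0, by simp⟩
  have p4 : s 1 (t⁻¹ * b⁻¹ * t⁻¹) := hpos _ ⟨_, hb', -1, by
    rw [show (2 * (-1) : ℤ) = -1 + -1 by norm_num, zpow_add, zpow_neg_one]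
    group⟩
  have fin : ∀ x : G, s 1 x → s x (b * t) → s x (t⁻¹ * b⁻¹) → b * t = 1 ∧ x = 1 := by
    intro x q1 q2 q3
    have q4 := strans _ _ _ q1 q2
    have q5 := strans _ _ _ q1 q3
    have q6 := smul _ _ (b * t) q5
    rw [one_mul, ← mul_inv_rev, inv_mul_cancel] at q6
    have q7 := santi _ _ q4 q6
    refine ⟨q7.symm, ?_⟩
    rw [← q7] at q2
    exact santi _ _ q2 q1
  have fin2 : b * t = 1 → t = 1 → False := by
    intro q1 q2
    rw [q2, mul_one] at q1
    rw [q1] at hb h1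
    exact h1 hb
  rcases stot 1 t with h | h
  · have q1 := smul _ _ t p2
    have q2 := smul _ _ t p4
    rw [one_mul] at q1 q2
    rw [inv_mul_cancel_right] at q2
    obtain ⟨q3, q4⟩ := fin t h q1 q2
    exact fin2 q3 q4
  · have h' := smul _ _ t⁻¹ h
    rw [mul_inv_cancel, one_mul] at h'
    have q1 := smul _ _ t⁻¹ p1
    have q2 := smul _ _ t⁻¹ p3
    rw [one_mul, mul_inv_cancel_right] at q1 q2
    obtain ⟨q3, q4⟩ := fin t⁻¹ h' q1 q2
    exact fin2 q3 (inv_eq_one.1 q4)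

end law

/-- Let `H` be a subgroup and `h ↦ (x ↦ l h * x + τ h)` an affine action of `H` on the line with
an element reversing the orientation. Then `H` has a fixed point. -/
theorem affine {G : Type*} [Group G] (hG : ORStar G) (H : Subgroup G) (l : H →* ℝˣ) (τ : H → ℝ)
    (hτ : ∀ g h, τ (g * h) = τ g + (l g : ℝ) * τ h) (t : H) (ht : (l t : ℝ) < 0) :
    ∃ x : ℝ, ∀ h, (l h : ℝ) * x + τ h = x := by
  have h1l : (1 : ℝ) - l t ≠ 0 := by linarith
  have hone : τ 1 = 0 := by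
    have := hτ 1 1
    rw [mul_one, map_one, Units.val_one, one_mul] at this
    linarith
  have hinv : ∀ g, (l g : ℝ) * τ g⁻¹ = - τ g := by
    intro g
    have := hτ g g⁻¹
    rw [mul_inv_cancel, hone] at this
    linarith
  have hconj : ∀ u k, l k = 1 → τ (u * k * u⁻¹) = (l u : ℝ) * τ k := by
    intro u k hk
    rw [hτ, hτ, map_mul, hk, mul_one, hinv]
    ring
  refine ⟨τ t / (1 - l t), fun h => ?_⟩
  by_contra hne
  have hb1 : l (h * t * h⁻¹ * t⁻¹) = 1 := by
    rw [map_mul, map_mul, map_mul, map_inv, map_inv, mul_comm (l h), mul_inv_cancel_right,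
      mul_inv_cancel]
  have hb : τ (h * t * h⁻¹ * t⁻¹) = (1 - l t) * τ h - (1 - l h) * τ t := by
    have e1 : τ (h * t * h⁻¹) = (1 - l t) * τ h + l h * τ t := by
      rw [hτ, hτ, map_mul, Units.val_mul, mul_comm (l h : ℝ) (l t : ℝ), mul_assoc, hinv]
      ring
    have e2 : l (h * t * h⁻¹) = l t := by
      rw [map_mul, map_mul, map_inv, mul_comm (l h), mul_inv_cancel_right]
    rw [hτ, e1, e2, hinv]
    ring
  generalize hbb : h * t * h⁻¹ * t⁻¹ = b at hb1 hb
  have hb0 : τ b ≠ 0 := by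
    intro h0
    apply hne
    rw [h0] at hb
    field_simp
    linarith
  have hsq : 0 < τ b * τ b := mul_self_pos.2 hb0
  have hbi : τ b⁻¹ = - τ b := by
    have := hinv b
    rwa [hb1, Units.val_one, one_mul] at this
  have key : ∀ g ∈ alt (b : G) (t : G), ∃ k : H, (k : G) = g ∧ l k = 1 ∧ 0 < τ k * τ b := by
    intro g hg
    induction hg using Subsemigroup.closure_induction with
    | mem x hx =>
      obtain ⟨k, rfl | rfl⟩ := hx
      · refine ⟨t ^ (2 * k) * b * (t ^ (2 * k))⁻¹, by push_cast; rfl, ?_, ?_⟩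
        · rw [map_mul, map_mul, map_inv, hb1, mul_one, mul_inv_cancel]
        · rw [hconj _ _ hb1, map_zpow, Units.val_zpow_eq_zpow_val, mul_assoc]
          have : 0 < (l t : ℝ) ^ (2 * k) := (even_two_mul k).zpow_pos ht.ne
          positivity
      · have hb1' : l b⁻¹ = 1 := by rw [map_inv, hb1, inv_one]
        refine ⟨t ^ (2 * k + 1) * b⁻¹ * (t ^ (2 * k + 1))⁻¹, by push_cast; rfl, ?_, ?_⟩
        · rw [map_mul, map_mul, hb1', mul_one, map_inv, mul_inv_cancel]
        · rw [hconj _ _ hb1', map_zpow, Units.val_zpow_eq_zpow_val, hbi]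
          have h2 : (l t : ℝ) ^ (2 * k + 1) < 0 := (odd_two_mul_add_one k).zpow_neg ht
          have h3 : (l t : ℝ) ^ (2 * k + 1) * -τ b * τ b =
            (- (l t : ℝ) ^ (2 * k + 1)) * (τ b * τ b) := by ring
          rw [h3]
          exact mul_pos (neg_pos.2 h2) hsq
    | mul x y _ _ h1 h2 =>
      obtain ⟨k, rfl, hk1, hk2⟩ := h1
      obtain ⟨k', rfl, hk1', hk2'⟩ := h2
      refine ⟨k * k', rfl, by rw [map_mul, hk1, hk1', mul_one], ?_⟩
      rw [hτ, hk1, Units.val_one, one_mul, add_mul]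
      exact add_pos hk2 hk2'
  obtain ⟨k, hk, -, hk2⟩ := key 1 (law hG _ _)
  have hk' : k = 1 := Subtype.ext hk
  rw [hk', hone, zero_mul] at hk2
  exact lt_irrefl _ hk2

/-- No subgroup maps onto the infinite dihedral group. -/
theorem dihedral {G : Type*} [Group G] (hG : ORStar G) (H : Subgroup G)
    (f : H →* DihedralGroup 0) : ¬ Function.Surjective f := by
  intro hf
  obtain ⟨b, hb⟩ := hf (DihedralGroup.r 1)
  obtain ⟨t, ht⟩ := hf (DihedralGroup.sr 0)
  have ht2 : ∀ k : ℤ, f (t ^ (2 * k)) = 1 := by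
    intro k
    rw [map_zpow, ht, zpow_mul, zpow_two, DihedralGroup.sr_mul_self, one_zpow]
  have ht3 : ∀ k : ℤ, f (t ^ (2 * k + 1)) = DihedralGroup.sr 0 := by
    intro k
    rw [zpow_add_one, map_mul, ht2, one_mul, ht]
  have key : ∀ g ∈ alt (b : G) (t : G), ∃ k : H, (k : G) = g ∧ ∃ n : ℕ, 0 < n ∧
      f k = DihedralGroup.r (n : ZMod 0) := by
    intro g hg
    induction hg using Subsemigroup.closure_induction with
    | mem x hx =>
      obtain ⟨k, rfl | rfl⟩ := hx
      · refine ⟨t ^ (2 * k) * b * (t ^ (2 * k))⁻¹, by push_cast; rfl, 1, one_pos, ?_⟩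
        rw [map_mul, map_mul, map_inv, ht2, hb, one_mul, inv_one, mul_one, Nat.cast_one]
      · refine ⟨t ^ (2 * k + 1) * b⁻¹ * (t ^ (2 * k + 1))⁻¹, by push_cast; rfl, 1, one_pos, ?_⟩
        rw [map_mul, map_mul, map_inv, map_inv, ht3, hb, DihedralGroup.inv_r,
          DihedralGroup.inv_sr, DihedralGroup.sr_mul_r, DihedralGroup.sr_mul_sr, Nat.cast_one]
        congr 1
    | mul x y _ _ h1 h2 =>
      obtain ⟨k, rfl, n, hn, hk⟩ := h1
      obtain ⟨k', rfl, n', hn', hk'⟩ := h2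
      refine ⟨k * k', rfl, n + n', add_pos hn hn', ?_⟩
      rw [map_mul, hk, hk', DihedralGroup.r_mul_r, Nat.cast_add]
  obtain ⟨k, hk, n, hn, hkn⟩ := key 1 (law hG _ _)
  have hk' : k = 1 := Subtype.ext hk
  rw [hk', map_one, DihedralGroup.one_def] at hkn
  have h0 : (0 : ZMod 0) = (n : ZMod 0) := DihedralGroup.r.inj hkn
  have h0' : (0 : ℕ) ∣ n := (CharP.cast_eq_zero_iff (ZMod 0) 0 n).1 h0.symm
  exact hn.ne' (Nat.eq_zero_of_zero_dvd h0')

/-- No element conjugates the strict positive cone of a nontrivial right partial order to its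
inverse. -/
theorem cone {G : Type*} [Group G] (hG : ORStar G) (P : Subsemigroup G) (hP : (P : Set G).Nonempty)
    (h1 : (1 : G) ∉ P) (t : G) : ¬ ∀ g, g ∈ P ↔ (t * g * t⁻¹)⁻¹ ∈ P := by
  intro ht
  obtain ⟨b, hb⟩ := hP
  have h2 : ∀ g, g ∈ P ↔ t ^ (2 : ℤ) * g * (t ^ (2 : ℤ))⁻¹ ∈ P := by
    intro g
    rw [ht g, ht (t * g * t⁻¹)⁻¹]
    have : (t * (t * g * t⁻¹)⁻¹ * t⁻¹)⁻¹ = t ^ (2 : ℤ) * g * (t ^ (2 : ℤ))⁻¹ := by
      rw [zpow_two]
      simp only [mul_inv_rev, inv_inv, mul_assoc]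
    rw [this]
  have h3 : ∀ k : ℤ, t ^ (2 * k) * b * (t ^ (2 * k))⁻¹ ∈ P := by
    intro k
    induction k using Int.induction_on with
    | zero => simpa using hb
    | succ n ih =>
      have := (h2 _).1 ih
      convert this using 1
      rw [mul_add, mul_one, add_comm, zpow_add]
      group
    | pred n ih =>
      refine (h2 _).2 ?_
      convert ih using 1
      rw [mul_sub, mul_one, sub_eq_add_neg, add_comm, zpow_add]
      group
  have h4 : alt b t ≤ P := by
    refine Subsemigroup.closure_le.2 ?_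
    rintro x ⟨k, rfl | rfl⟩
    · exact h3 k
    · have h5 := (ht _).1 (h3 k)
      have h6 : t ^ (2 * k + 1) * b⁻¹ * (t ^ (2 * k + 1))⁻¹ =
          (t * (t ^ (2 * k) * b * (t ^ (2 * k))⁻¹) * t⁻¹)⁻¹ := by
        rw [show 2 * k + 1 = 1 + 2 * k by ring, zpow_add t 1, zpow_one]
        simp only [mul_inv_rev, inv_inv, mul_assoc]
      rw [h6]
      exact h5
  exact h1 (h4 (law hG b t))

/-- The subsemigroup generated by the conjugates of the elements of `P` under powers of `t`. -/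
def hull {G : Type*} [Group G] (P : Subsemigroup G) (t : G) : Subsemigroup G :=
  Subsemigroup.closure {g | ∃ i : ℤ, ∃ p ∈ P, g = t ^ i * p * (t ^ i)⁻¹}

theorem norm_zpow {G : Type*} [Group G] {P : Subsemigroup G} {t : G}
    (hP : ∀ g, g ∈ P ↔ t * g * t⁻¹ ∈ P) (q : ℤ) : ∀ p ∈ P, t ^ q * p * (t ^ q)⁻¹ ∈ P := by
  intro p hp
  induction q using Int.induction_on with
  | zero => simpa using hp
  | succ n ih =>
    have h := (hP _).1 ih
    convert h using 1
    rw [add_comm, zpow_add, zpow_one]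
    simp only [mul_inv_rev, mul_assoc]
  | pred n ih =>
    refine (hP _).2 ?_
    convert ih using 1
    rw [sub_eq_add_neg, add_comm, zpow_add, zpow_neg_one]
    simp only [mul_inv_rev, mul_assoc, inv_inv, mul_inv_cancel_left, mul_inv_cancel, mul_one]

theorem pos_conj {G : Type*} [Group G] (s : G → G → Prop) (srefl : ∀ a, s a a)
    (strans : ∀ a b c, s a b → s b c → s a c) (smul : ∀ a b c, s a b → s (a * c) (b * c))
    {P : Subsemigroup G} {t : G} {n : ℕ} (hn : 0 < n)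
    (hP : ∀ g, g ∈ P ↔ t ^ n * g * (t ^ n)⁻¹ ∈ P)
    (hs : ∀ g ∈ P, ∀ m : ℤ, s 1 (g * (t ^ n) ^ m)) (ht : s 1 t) :
    ∀ i : ℤ, ∀ p ∈ P, s 1 (t ^ i * p * (t ^ i)⁻¹) := by
  have hmul : ∀ a b, s 1 a → s 1 b → s 1 (a * b) := by
    intro a b ha hb
    have := smul _ _ b ha
    rw [one_mul] at this
    exact strans _ _ _ hb this
  have hpow : ∀ k : ℕ, s 1 (t ^ k) := by
    intro k
    induction k with
    | zero => rw [pow_zero]; exact srefl 1
    | succ k ih => rw [pow_succ]; exact hmul _ _ ih ht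
  intro i p hp
  have hr0 : 0 ≤ i % n := Int.emod_nonneg _ (by omega)
  obtain ⟨r, hr⟩ := Int.eq_ofNat_of_zero_le hr0
  have hi : i = r + n * (i / n) := by
    have := Int.emod_add_mul_ediv i n
    omega
  have hp' := norm_zpow hP (i / n) p hp
  have h1 : t ^ i * p * (t ^ i)⁻¹ =
      t ^ r * (((t ^ n) ^ (i / n) * p * ((t ^ n) ^ (i / n))⁻¹) * (t ^ n) ^ (-(r : ℤ))) *
        t ^ (n * r - r) := by
    have h2 : t ^ i = t ^ r * (t ^ n) ^ (i / n) := by
      rw [← zpow_natCast t n, ← zpow_mul, ← zpow_natCast t r, ← zpow_add, ← hi]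
    have h3 : (t ^ n) ^ (-(r : ℤ)) * t ^ (n * r - r) = (t ^ r)⁻¹ := by
      rw [zpow_neg, zpow_natCast, ← pow_mul, ← pow_sub_mul_pow t (Nat.le_mul_of_pos_left r hn),
        mul_inv_rev, mul_assoc]
      have : (t ^ (n * r - r))⁻¹ * t ^ (n * r - r) = 1 := inv_mul_cancel _
      rw [this, mul_one]
    rw [h2]
    simp only [mul_assoc, h3, mul_inv_rev]
  rw [h1]
  exact hmul _ _ (hmul _ _ (hpow r) (hs _ hp' _)) (hpow _)

/-- Cones normalised by a power of `t`. -/
theorem cone_pow {G : Type*} [Group G] (hG : ORStar G) (P : Subsemigroup G) (t : G) (n : ℕ)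
    (hn : 0 < n) (hP : ∀ g, g ∈ P ↔ t ^ n * g * (t ^ n)⁻¹ ∈ P)
    (h1 : ∀ g ∈ P, ∀ m : ℤ, g * (t ^ n) ^ m ≠ 1) : (1 : G) ∉ hull P t := by
  let P' : Set G := {g | ∃ u ∈ P, ∃ m : ℤ, g = u * (t ^ n) ^ m}
  have hPmul : ∀ x ∈ P', ∀ y ∈ P', x * y ∈ P' := by
    rintro x ⟨u, hu, m, rfl⟩ y ⟨v, hv, k, rfl⟩
    refine ⟨u * ((t ^ n) ^ m * v * ((t ^ n) ^ m)⁻¹), mul_mem hu (norm_zpow hP m v hv), m + k, ?_⟩
    rw [zpow_add]
    simp only [mul_assoc, inv_mul_cancel_left]
  have hP1 : (1 : G) ∉ P' := by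
    rintro ⟨u, hu, m, hm⟩
    exact h1 u hu m hm.symm
  obtain ⟨s, hs, srefl, strans, santi, smul, stot⟩ := hG (fun a c => a = c ∨ c * a⁻¹ ∈ P')
    (fun a => Or.inl rfl)
    (by
      rintro a c d (rfl | h2) (rfl | h3)
      · exact Or.inl rfl
      · exact Or.inr h3
      · exact Or.inr h2
      · right
        have h4 := hPmul _ h3 _ h2
        rwa [mul_assoc, inv_mul_cancel_left] at h4)
    (by
      rintro a c (rfl | h2) (h3 | h3)
      · rfl
      · rfl
      · exact h3.symm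
      · have h4 := hPmul _ h3 _ h2
        rw [mul_assoc, inv_mul_cancel_left, mul_inv_cancel] at h4
        exact absurd h4 hP1)
    (by
      rintro a c d (rfl | h2)
      · exact Or.inl rfl
      · right
        rwa [mul_inv_rev, mul_assoc, mul_inv_cancel_left])
  have hpos : ∀ g ∈ P, ∀ m : ℤ, s 1 (g * (t ^ n) ^ m) := fun g hg m =>
    hs 1 _ (Or.inr (by rw [inv_one, mul_one]; exact ⟨g, hg, m, rfl⟩))
  have hconj : ∀ i : ℤ, ∀ p ∈ P, s 1 (t ^ i * p * (t ^ i)⁻¹) := by
    rcases stot 1 t with h | h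
    · exact pos_conj s srefl strans smul hn hP hpos h
    · have h' := smul _ _ t⁻¹ h
      rw [mul_inv_cancel, one_mul] at h'
      have hP'' : ∀ g, g ∈ P ↔ t⁻¹ ^ n * g * (t⁻¹ ^ n)⁻¹ ∈ P := by
        intro g
        rw [hP (t⁻¹ ^ n * g * (t⁻¹ ^ n)⁻¹), inv_pow, inv_inv]
        simp only [mul_assoc, mul_inv_cancel_left, mul_inv_cancel, mul_one]
      have h5 := pos_conj s srefl strans smul hn hP'' (fun g hg m => by
        rw [inv_pow, inv_zpow', ← inv_zpow', inv_zpow, ← zpow_neg]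
        exact hpos g hg _) h'
      intro i p hp
      have h6 := h5 (-i) p hp
      rwa [inv_zpow', neg_neg] at h6
  have key : ∀ g ∈ hull P t, s 1 g ∧ g ≠ 1 := by
    intro g hg
    induction hg using Subsemigroup.closure_induction with
    | mem x hx =>
      obtain ⟨i, p, hp, rfl⟩ := hx
      refine ⟨hconj i p hp, fun h => ?_⟩
      have h7 := h1 p hp 0
      rw [zpow_zero, mul_one] at h7
      exact h7 (conj_eq_one_iff.1 h)
    | mul x y _ _ hx hy =>
      have h8 := smul _ _ y hx.1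
      rw [one_mul] at h8
      refine ⟨strans _ _ _ hy.1 h8, fun h => ?_⟩
      rw [h] at h8
      exact hy.2 (santi _ _ h8 hy.1)
  exact fun h => (key 1 h).2 rfl

/-- Actions of finite order on abelian subgroups of quotients of subgroups. -/
theorem finite_action {G : Type*} [Group G] (hG : ORStar G) (H : Subgroup G) {K : Type*} [Group K]
    (φ : H →* K) (hφ : Function.Surjective φ) (A : Subgroup K)
    (hA : ∀ a ∈ A, ∀ b ∈ A, a * b = b * a)
    (htf : ∀ a ∈ A, ∀ k : ℕ, 0 < k → a ^ k = 1 → a = 1) (t : K)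
    (ht : ∀ a ∈ A, t * a * t⁻¹ ∈ A) (n : ℕ) (hn : 0 < n)
    (htn : ∀ a ∈ A, t ^ n * a = a * t ^ n) :
    ∀ a ∈ A, t * a = a * t := by
  intro b hb
  by_contra hne
  obtain ⟨T, hT⟩ := hφ t
  obtain ⟨B, hB⟩ := hφ b
  let P : Subsemigroup G :=
    { carrier := {g | ∃ h : H, (h : G) = g ∧ ∃ k : ℕ, 0 < k ∧ ∃ f ∈ A, t * f = f * t ∧
        φ h = b ^ k * f}
      mul_mem' := by
        rintro x y ⟨h, rfl, k, hk, f, hf, hft, hh⟩ ⟨h', rfl, k', hk', f', hf', hft', hh'⟩
        refine ⟨h * h', rfl, k + k', by omega, f * f', mul_mem hf hf', ?_, ?_⟩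
        · rw [← mul_assoc, hft, mul_assoc, hft', mul_assoc]
        · have h1 := hA f hf (b ^ k') (pow_mem hb k')
          rw [map_mul, hh, hh', pow_add, mul_assoc, ← mul_assoc f, h1]
          simp only [mul_assoc] }
  have hbk : ∀ k : ℕ, 0 < k → t * b ^ k ≠ b ^ k * t := by
    intro k hk h
    have hc : t * b * t⁻¹ ∈ A := ht b hb
    have h2 : (t * b * t⁻¹) ^ k = b ^ k := by
      rw [conj_pow, h, mul_inv_cancel_right]
    have hcomm : Commute (t * b * t⁻¹) b⁻¹ := hA _ hc _ (inv_mem hb)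
    have h3 : (t * b * t⁻¹ * b⁻¹) ^ k = 1 := by
      rw [hcomm.mul_pow, h2, inv_pow, mul_inv_cancel]
    have h4 := htf _ (mul_mem hc (inv_mem hb)) k hk h3
    apply hne
    rw [mul_inv_eq_one] at h4
    rwa [mul_inv_eq_iff_eq_mul] at h4
  have hBP : (B : G) ∈ P := ⟨B, rfl, 1, one_pos, 1, one_mem A, by rw [mul_one, one_mul],
    by rw [hB, pow_one, mul_one]⟩
  have hPn : ∀ g, g ∈ P ↔ (T : G) ^ n * g * ((T : G) ^ n)⁻¹ ∈ P := by
    intro g
    constructor
    · rintro ⟨h, rfl, k, hk, f, hf, hft, hh⟩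
      refine ⟨T ^ n * h * (T ^ n)⁻¹, by push_cast; rfl, k, hk, f, hf, hft, ?_⟩
      rw [map_mul, map_mul, map_inv, map_pow, hT, hh, htn _ (mul_mem (pow_mem hb k) hf),
        mul_inv_cancel_right]
    · rintro ⟨h, hg, k, hk, f, hf, hft, hh⟩
      refine ⟨(T ^ n)⁻¹ * h * T ^ n, ?_, k, hk, f, hf, hft, ?_⟩
      · push_cast
        rw [hg]
        simp only [mul_assoc, inv_mul_cancel_left, inv_mul_cancel, mul_one]
      · rw [map_mul, map_mul, map_inv, map_pow, hT, hh, mul_assoc,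
          ← htn _ (mul_mem (pow_mem hb k) hf), inv_mul_cancel_left]
  have hP1 : ∀ g ∈ P, ∀ m : ℤ, g * ((T : G) ^ n) ^ m ≠ 1 := by
    rintro g ⟨h, rfl, k, hk, f, hf, hft, hh⟩ m h1
    have h2 : h * (T ^ n) ^ m = 1 := Subtype.ext (by push_cast; exact h1)
    have h3 : b ^ k * f * (t ^ n) ^ m = 1 := by
      have := congrArg φ h2
      rwa [map_mul, map_zpow, map_pow, hT, hh, map_one] at this
    have h4 : b ^ k * f = ((t ^ n) ^ m)⁻¹ := eq_inv_of_mul_eq_one_left h3
    have h5 : Commute t (b ^ k * f) := by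
      rw [h4]
      exact (((Commute.refl t).pow_right n).zpow_right m).inv_right
    apply hbk k hk
    have h6 : t * (b ^ k * f) = b ^ k * f * t := h5
    rw [mul_assoc, ← hft, ← mul_assoc, ← mul_assoc] at h6
    exact mul_right_cancel h6
  -- the products
  let c : ℕ → H := fun j => T ^ j * B * (T ^ j)⁻¹
  let R : ℕ → H := fun j => Nat.rec 1 (fun i r => r * c (i + 1)) j
  have hR0 : R 0 = 1 := rfl
  have hRs : ∀ j, R (j + 1) = R j * c (j + 1) := fun _ => rfl
  have hc : ∀ j, φ (c j) = t ^ j * b * (t ^ j)⁻¹ := by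
    intro j
    show φ (T ^ j * B * (T ^ j)⁻¹) = _
    rw [map_mul, map_mul, map_inv, map_pow, hT, hB]
  have hcs : ∀ j, φ (c (j + 1)) = t * φ (c j) * t⁻¹ := by
    intro j
    rw [hc, hc, pow_succ']
    simp only [mul_assoc, mul_inv_rev]
  have hcA : ∀ j, φ (c j) ∈ A := by
    intro j
    induction j with
    | zero => rw [hc, pow_zero, one_mul, inv_one, mul_one]; exact hb
    | succ j ih => rw [hcs]; exact ht _ ih
  have hNA : ∀ j, φ (B * R j) ∈ A := by
    intro j
    induction j with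
    | zero => rw [hR0, mul_one, hB]; exact hb
    | succ j ih => rw [hRs, ← mul_assoc, map_mul]; exact mul_mem ih (hcA _)
  have hN : ∀ j, t * φ (B * R j) * t⁻¹ * b = φ (B * R j) * φ (c (j + 1)) := by
    intro j
    induction j with
    | zero =>
      rw [hR0, mul_one, hB, hcs, hc, pow_zero, one_mul, inv_one, mul_one]
      exact hA _ (ht b hb) _ hb
    | succ j ih =>
      have e1 : φ (B * R (j + 1)) = φ (B * R j) * φ (c (j + 1)) := by
        rw [hRs, ← mul_assoc, map_mul]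
      have e2 : t * (φ (B * R j) * φ (c (j + 1))) * t⁻¹ =
          (t * φ (B * R j) * t⁻¹) * φ (c (j + 1 + 1)) := by
        rw [hcs (j + 1)]
        simp only [mul_assoc, inv_mul_cancel_left]
      rw [e1, e2, mul_assoc _ _ b, hA _ (hcA _) b hb, ← mul_assoc, ih]
  obtain ⟨m, rfl⟩ : ∃ m, n = m + 1 := ⟨n - 1, by omega⟩
  have hNt : t * φ (B * R m) = φ (B * R m) * t := by
    have h1 := hN m
    rw [hc, htn b hb, mul_inv_cancel_right] at h1
    have h2 := mul_right_cancel h1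
    rwa [mul_inv_eq_iff_eq_mul] at h2
  have hp0 : (((B * R m)⁻¹ * B : H) : G) ∈ P := by
    refine ⟨_, rfl, 1, one_pos, (φ (B * R m))⁻¹, inv_mem (hNA m), ?_, ?_⟩
    · exact (Commute.inv_right (show Commute t (φ (B * R m)) from hNt))
    · rw [map_mul, map_inv, hB, pow_one]
      exact hA _ (inv_mem (hNA m)) _ hb
  have hmem : ∀ j, (((B * R m)⁻¹ * B * R j : H) : G) ∈ hull P (T : G) := by
    intro j
    induction j with
    | zero =>
      rw [hR0, mul_one]
      exact Subsemigroup.subset_closure ⟨0, _, hp0, by rw [zpow_zero, one_mul, inv_one, mul_one]⟩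
    | succ j ih =>
      rw [hRs, ← mul_assoc, Subgroup.coe_mul]
      refine mul_mem ih (Subsemigroup.subset_closure ⟨((j + 1 : ℕ) : ℤ), (B : G), hBP, ?_⟩)
      rw [zpow_natCast]
      show ((T ^ (j + 1) * B * (T ^ (j + 1))⁻¹ : H) : G) = _
      push_cast
      rfl
  refine cone_pow hG P T (m + 1) hn hPn hP1 ?_
  have h1 := hmem m
  have h2 : ((B * R m)⁻¹ * B * R m : H) = 1 := by rw [mul_assoc, inv_mul_cancel]
  rwa [h2] at h1

/-- Let `G` be a group in which every right partial order extends to a right order. -/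
theorem result (G : Type*) [Group G] (hG : ORStar G) :
    (∀ (P : Subsemigroup G) (t : G), (P : Set G).Nonempty → (1 : G) ∉ P →
      ¬ ∀ g, g ∈ P ↔ (t * g * t⁻¹)⁻¹ ∈ P) ∧
    (∀ (P : Subsemigroup G) (t : G) (n : ℕ), 0 < n →
      (∀ g, g ∈ P ↔ t ^ n * g * (t ^ n)⁻¹ ∈ P) →
      (∀ g ∈ P, ∀ m : ℤ, g * (t ^ n) ^ m ≠ 1) → (1 : G) ∉ hull P t) ∧
    (∀ (H : Subgroup G) (K : Type*) [Group K] (φ : H →* K), Function.Surjective φ →
      ∀ A : Subgroup K, (∀ a ∈ A, ∀ b ∈ A, a * b = b * a) →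
      (∀ a ∈ A, ∀ k : ℕ, 0 < k → a ^ k = 1 → a = 1) →
      ∀ t : K, (∀ a ∈ A, t * a * t⁻¹ ∈ A) →
      ∀ n : ℕ, 0 < n → (∀ a ∈ A, t ^ n * a = a * t ^ n) → ∀ a ∈ A, t * a = a * t) ∧
    (∀ (H : Subgroup G) (l : H →* ℝˣ) (τ : H → ℝ),
      (∀ g h, τ (g * h) = τ g + (l g : ℝ) * τ h) → (∃ t, (l t : ℝ) < 0) →
      ∃ x : ℝ, ∀ h, (l h : ℝ) * x + τ h = x) ∧
    ∀ (H : Subgroup G) (f : H →* DihedralGroup 0), ¬ Function.Surjective f :=
  ⟨fun P t h1 h2 => cone hG P h1 h2 t,
    fun P t n hn hP h1 => cone_pow hG P t n hn hP h1,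
    fun H _ _ φ hφ A hA htf t ht n hn htn => finite_action hG H φ hφ A hA htf t ht n hn htn,
    fun H l τ hτ ⟨t, ht⟩ => affine hG H l τ hτ t ht, dihedral hG⟩

end Pool.Agent.Results.MP_5ef000_al.FiniteOrderActions
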