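import Mathlib

set_option autoImplicit false

namespace Pool.Agent.Results.MP_5ef000_al.NoDihedralSection

/-- The `(OR)*` property, spelled as in the frozen statement: every right-invariant order
relation (not necessarily total) on `G` is contained in a right-invariant total order
on `G`. Applied to equality it gives that `G` is right-orderable. -/
def ORStar (G : Type) [Group G] : Prop :=
  ∀ r : G → G → Prop,
    (∀ a, r a a) → (∀ a b c, r a b → r b c → r a c) →
    (∀ a b, r a b → r b a → a = b) → (∀ a b c, r a b → r (a * c) (b * c)) →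
    ∃ s : G → G → Prop, (∀ a b, r a b → s a b) ∧
      (∀ a, s a a) ∧ (∀ a b c, s a b → s b c → s a c) ∧
      (∀ a b, s a b → s b a → a = b) ∧ (∀ a b c, s a b → s (a * c) (b * c)) ∧
      (∀ a b, s a b ∨ s b a)

/-- In an `(OR)*` group any two elements satisfy a relation: some product of one or more
factors of the form `y^{±1} x^{±1}` is trivial. -/
theorem relation {G : Type} [Group G] (hG : ORStar G) (x y : G) :
    (1 : G) ∈ Subsemigroup.closure ({y * x, y * x⁻¹, y⁻¹ * x, y⁻¹ * x⁻¹} : Set G) := by
  by_contra h1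
  set P := Subsemigroup.closure ({y * x, y * x⁻¹, y⁻¹ * x, y⁻¹ * x⁻¹} : Set G) with hP
  have m1 : y * x ∈ P := Subsemigroup.subset_closure (by simp)
  have m2 : y * x⁻¹ ∈ P := Subsemigroup.subset_closure (by simp)
  have m3 : y⁻¹ * x ∈ P := Subsemigroup.subset_closure (by simp)
  have m4 : y⁻¹ * x⁻¹ ∈ P := Subsemigroup.subset_closure (by simp)
  obtain ⟨s, hrs, -, htr, han, hri, htot⟩ := hG (fun a b => a = b ∨ b * a⁻¹ ∈ P)
    (fun a => Or.inl rfl)
    (by
      rintro a b c (rfl | h) (rfl | h')
      · exact Or.inl rfl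
      · exact Or.inr h'
      · exact Or.inr h
      · right
        have := P.mul_mem h' h
        simpa [mul_assoc] using this)
    (by
      rintro a b (rfl | h) (h' | h')
      · rfl
      · rfl
      · exact h'.symm
      · exfalso
        apply h1
        have := P.mul_mem h' h
        simpa [mul_assoc] using this)
    (by
      rintro a b c (rfl | h)
      · exact Or.inl rfl
      · right
        have e : b * c * (a * c)⁻¹ = b * a⁻¹ := by group
        rw [e]; exact h)
  have pos : ∀ g, g ∈ P → s 1 g := fun g hg => hrs 1 g (Or.inr (by simpa using hg))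
  have mul : ∀ g h, s 1 g → s 1 h → s 1 (g * h) := by
    intro g h hg hh
    have := hri 1 g h hg
    rw [one_mul] at this
    exact htr _ _ _ hh this
  have inv1 : ∀ g, s g 1 → s 1 g⁻¹ := by
    intro g hg
    have := hri g 1 g⁻¹ hg
    simpa using this
  have inv2 : ∀ g, s 1 g → s g⁻¹ 1 := by
    intro g hg
    have := hri 1 g g⁻¹ hg
    simpa using this
  have fin : s 1 y → s 1 y⁻¹ → False := by
    intro h h'
    have hy : y⁻¹ = 1 := han _ _ (inv2 y h) h'
    have hy' : y = 1 := by simpa using hy
    subst hy'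
    apply h1
    have := P.mul_mem m1 m2
    simpa using this
  rcases htot 1 x with hx | hx
  · have a1 := mul _ _ (pos _ m2) hx
    have a2 := mul _ _ (pos _ m4) hx
    rw [inv_mul_cancel_right] at a1 a2
    exact fin a1 a2
  · have hx' := inv1 x hx
    have a1 := mul _ _ (pos _ m1) hx'
    have a2 := mul _ _ (pos _ m3) hx'
    rw [mul_inv_cancel_right] at a1 a2
    exact fin a1 a2

/-- The law for one element `b` and its conjugates under the powers of `t`. -/
theorem conjLaw {G : Type} [Group G] (hG : ORStar G) (b t : G) :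
    (1 : G) ∈ Subsemigroup.closure {g : G | ∃ k : ℤ,
      g = t ^ (2 * k) * b * (t ^ (2 * k))⁻¹ ∨
      g = t ^ (2 * k + 1) * b⁻¹ * (t ^ (2 * k + 1))⁻¹} := by
  set T := Subsemigroup.closure {g : G | ∃ k : ℤ,
      g = t ^ (2 * k) * b * (t ^ (2 * k))⁻¹ ∨
      g = t ^ (2 * k + 1) * b⁻¹ * (t ^ (2 * k + 1))⁻¹} with hT
  have gen1 : ∀ k : ℤ, t ^ (2 * k) * b * (t ^ (2 * k))⁻¹ ∈ T := fun k =>
    Subsemigroup.subset_closure ⟨k, Or.inl rfl⟩
  have gen2 : ∀ k : ℤ, t ^ (2 * k + 1) * b⁻¹ * (t ^ (2 * k + 1))⁻¹ ∈ T := fun k =>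
    Subsemigroup.subset_closure ⟨k, Or.inr rfl⟩
  have norm : ∀ (m : ℤ) (g : G), g ∈ T → t ^ (2 * m) * g * (t ^ (2 * m))⁻¹ ∈ T := by
    intro m g hg
    induction hg using Subsemigroup.closure_induction with
    | mem g hg =>
      obtain ⟨k, rfl | rfl⟩ := hg
      · have := gen1 (m + k)
        rw [mul_add, zpow_add] at this
        convert this using 1
        group
      · have := gen2 (m + k)
        rw [mul_add, add_assoc, zpow_add] at this
        convert this using 1
        group
    | mul g g' _ _ h h' =>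
      have := T.mul_mem h h'
      convert this using 1
      group
  have odd : ∀ g : G, g ∈ T → (t * g * t⁻¹)⁻¹ ∈ T := by
    intro g hg
    induction hg using Subsemigroup.closure_induction with
    | mem g hg =>
      obtain ⟨k, rfl | rfl⟩ := hg
      · have := gen2 k
        convert this using 1
        group
      · have := gen1 (k + 1)
        convert this using 1
        group
    | mul g g' _ _ h h' =>
      have := T.mul_mem h' h
      convert this using 1
      group
  have key : ∀ g ∈ Subsemigroup.closure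
      ({(b * t) * t, (b * t) * t⁻¹, (b * t)⁻¹ * t, (b * t)⁻¹ * t⁻¹} : Set G),
      ∃ k : ℤ, g * t ^ (2 * k) ∈ T := by
    intro g hg
    induction hg using Subsemigroup.closure_induction with
    | mem g hg =>
      rcases hg with rfl | rfl | rfl | rfl
      · refine ⟨-1, ?_⟩
        convert gen1 0 using 1
        group
      · refine ⟨0, ?_⟩
        convert gen1 0 using 1
        group
      · refine ⟨0, ?_⟩
        convert gen2 (-1) using 1
        group
      · refine ⟨1, ?_⟩
        convert gen2 (-1) using 1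
        group
    | mul g g' _ _ h h' =>
      obtain ⟨k, hk⟩ := h
      obtain ⟨k', hk'⟩ := h'
      refine ⟨k + k', ?_⟩
      have := T.mul_mem hk (norm (-k) _ hk')
      convert this using 1
      group
  obtain ⟨k, hk⟩ := key 1 (relation hG t (b * t))
  rw [one_mul] at hk
  have h2 := T.mul_mem hk (odd _ hk)
  convert h2 using 1
  group

/-- The nontrivial positive powers of the rotation in the infinite dihedral group. -/
def Good (k : DihedralGroup 0) : Prop :=
  ∃ n : ℕ, k = DihedralGroup.r (((n + 1 : ℕ) : ZMod 0))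

theorem good_mul (k l : DihedralGroup 0) (hk : Good k) (hl : Good l) : Good (k * l) := by
  obtain ⟨m, rfl⟩ := hk
  obtain ⟨n, rfl⟩ := hl
  refine ⟨m + n + 1, ?_⟩
  rw [DihedralGroup.r_mul_r, ← Nat.cast_add]
  congr 2
  omega

theorem not_good_one : ¬ Good 1 := by
  rintro ⟨n, h⟩
  rw [DihedralGroup.one_def] at h
  have h2 : (0 : ZMod 0) = ((n + 1 : ℕ) : ZMod 0) := DihedralGroup.r.inj h
  have h3 := (ZMod.natCast_eq_zero_iff (n + 1) 0).mp h2.symm
  rw [zero_dvd_iff] at h3
  omega

/-- A reflection. -/
def kx : DihedralGroup 0 := DihedralGroup.sr 0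

/-- The neighbouring reflection. -/
def ky : DihedralGroup 0 := DihedralGroup.sr (-1)

theorem good1 : Good (ky * kx) := ⟨0, by rfl⟩

theorem good2 : Good (ky * kx⁻¹) := ⟨0, by rfl⟩

theorem good3 : Good (ky⁻¹ * kx) := ⟨0, by rfl⟩

theorem good4 : Good (ky⁻¹ * kx⁻¹) := ⟨0, by rfl⟩

/-- The common core of the two non-embedding statements. -/
theorem core {G : Type} [Group G] (hG : ORStar G) {F : Type} [Group F] (f : F →* G)
    (hf : Function.Injective f) (ψ : F →* DihedralGroup 0) (x y : F) (hx : ψ x = kx)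
    (hy : ψ y = ky) : False := by
  have h := relation hG (f x) (f y)
  have key : ∀ g ∈ Subsemigroup.closure
      ({f y * f x, f y * (f x)⁻¹, (f y)⁻¹ * f x, (f y)⁻¹ * (f x)⁻¹} : Set G),
      ∃ w : F, f w = g ∧ Good (ψ w) := by
    intro g hg
    induction hg using Subsemigroup.closure_induction with
    | mem g hg =>
      rcases hg with rfl | rfl | rfl | rfl
      · exact ⟨y * x, by simp, by rw [map_mul, hx, hy]; exact good1⟩
      · exact ⟨y * x⁻¹, by simp, by rw [map_mul, map_inv, hx, hy]; exact good2⟩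
      · exact ⟨y⁻¹ * x, by simp, by rw [map_mul, map_inv, hx, hy]; exact good3⟩
      · exact ⟨y⁻¹ * x⁻¹, by simp, by rw [map_mul, map_inv, map_inv, hx, hy]; exact good4⟩
    | mul g g' _ _ h h' =>
      obtain ⟨w, rfl, hw⟩ := h
      obtain ⟨w', rfl, hw'⟩ := h'
      exact ⟨w * w', by simp, by rw [map_mul]; exact good_mul _ _ hw hw'⟩
  obtain ⟨w, hw, hgood⟩ := key 1 h
  have hw1 : w = 1 := hf (by rw [hw, map_one])
  subst hw1
  rw [map_one] at hgood
  exact not_good_one hgood

/-- Let `G` be an `(OR)*` group. Then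
(1) for all `x y : G` some product of one or more factors from `y x`, `y x⁻¹`, `y⁻¹ x`,
    `y⁻¹ x⁻¹` is trivial;
(2) for all `b t : G` some product of one or more factors, each a conjugate of `b` under an
    even power of `t` or a conjugate of `b⁻¹` under an odd power of `t`, is trivial;
(3) no subgroup of `G` has a homomorphism onto the infinite dihedral group;
(4) the free group of rank two does not embed in `G`. -/
theorem result (G : Type) [Group G] (hG : ORStar G) :
    (∀ x y : G,
      (1 : G) ∈ Subsemigroup.closure ({y * x, y * x⁻¹, y⁻¹ * x, y⁻¹ * x⁻¹} : Set G)) ∧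
    (∀ b t : G, (1 : G) ∈ Subsemigroup.closure {g : G | ∃ k : ℤ,
      g = t ^ (2 * k) * b * (t ^ (2 * k))⁻¹ ∨
      g = t ^ (2 * k + 1) * b⁻¹ * (t ^ (2 * k + 1))⁻¹}) ∧
    (∀ H : Subgroup G, ¬ ∃ ψ : H →* DihedralGroup 0, Function.Surjective ψ) ∧
    (¬ ∃ φ : FreeGroup (Fin 2) →* G, Function.Injective φ) := by
  refine ⟨relation hG, conjLaw hG, ?_, ?_⟩
  · rintro H ⟨ψ, hψ⟩
    obtain ⟨x, hx⟩ := hψ kx
    obtain ⟨y, hy⟩ := hψ ky
    exact core hG H.subtype H.subtype_injective ψ x y hx hy
  · rintro ⟨φ, hφ⟩
    exact core hG φ hφ (FreeGroup.lift ![kx, ky]) (FreeGroup.of 0) (FreeGroup.of 1)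
      (by simp) (by simp)

end Pool.Agent.Results.MP_5ef000_al.NoDihedralSection
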